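import Mathlib
import Pool.Agent.H589R3.DT.Main
import Pool.Agent.W953.RD.Multi
import Pool.Agent.W953.RD.WH
import Pool.Agent.W953.TG.Defs

/-!
# d-to-1 games on windows of numbers of edges
-/

set_option autoImplicit false

open scoped Classical
open Finset

namespace Pool.Agent.W953.DG

open Pool.Agent.W953.NW Pool.Agent.W953.RD
open Pool.Agent (H540R2.Circuit H540R2.Node H540R2.Gate)
open H589DT (DGame DYes DNo dInputs)
open Pool.Agent.W953.TG (absorb reout_eval)
open H630VC (Prog Mono2)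

/-- the number of bits that describe a game with `N` vertices on each side, left labels `[R]` and
right labels `[d R]` -/
def bits (N d R : ℕ) : ℕ := N * N * R ^ (d * R)

/-- a numbering of the bits -/
noncomputable def bitNo (N d R : ℕ) :
    (Fin N × Fin N × (Fin (d * R) → Fin R)) ≃ Fin (bits N d R) :=
  Fintype.equivFinOfCardEq (by simp [bits, mul_assoc])

/-- the bits of a game: for all `v`, `w`, `π`, are `v` and `w` adjacent with the constraint `π`? -/
noncomputable def code {N d R : ℕ} (I : DGame (Fin N) (Fin N) d R) : Fin (bits N d R) → Bool :=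
  fun i => decide (I.adj ((bitNo N d R).symm i).1 ((bitNo N d R).symm i).2.1 ∧
    I.map ((bitNo N d R).symm i).1 ((bitNo N d R).symm i).2.1 = ((bitNo N d R).symm i).2.2)

/-- the number of edges -/
noncomputable def edges {N d R : ℕ} (I : DGame (Fin N) (Fin N) d R) : ℕ :=
  (univ.filter fun e : Fin N × Fin N => I.adj e.1 e.2).card

/-- on the game `I` the circuit tells value less than `ε` (output one) from value one (output
zero) -/
def Right {N d R : ℕ} (ε : ℝ) (D : H540R2.Circuit (bits N d R)) (I : DGame (Fin N) (Fin N) d R) : Prop :=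
  (DNo ε I → D.eval (code I) = true) ∧ (DYes I → D.eval (code I) = false)

/-- Circuits of polynomial size tell the d-to-1 games with left labels `[R]` and right labels `[d R]`
of value less than `ε` from those of value one. -/
def Easy (d R : ℕ) (ε : ℝ) : Prop := ∃ c : ℕ, ∀ N : ℕ, ∃ D : H540R2.Circuit (bits N d R),
  D.size ≤ (N + 2) ^ c ∧ ∀ I, Right ε D I

/-- Circuits of polynomial size with at most `t N` NOT gates do this for the games with at least `a`
and less than `a + W N` edges, for all `a`. -/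
def EasyOn (d R : ℕ) (ε : ℝ) (t W : ℕ → ℕ) : Prop := ∃ c : ℕ, ∀ N a : ℕ,
  ∃ D : H540R2.Circuit (bits N d R), D.nots ≤ t N ∧ D.size ≤ (N + 2) ^ c ∧
    ∀ I, a ≤ edges I → edges I < a + W N → Right ε D I

lemma wt_code {N d R : ℕ} (I : DGame (Fin N) (Fin N) d R) : wt (code I) = edges I := by
  unfold wt edges
  symm
  refine card_bij (fun e _ => bitNo N d R (e.1, e.2, I.map e.1 e.2)) ?_ ?_ ?_
  · intro e he
    have h1 := (mem_filter.1 he).2
    refine mem_filter.2 ⟨mem_univ _, ?_⟩
    unfold code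
    rw [decide_eq_true_iff, Equiv.symm_apply_apply]
    exact ⟨h1, rfl⟩
  · rintro ⟨a, b⟩ _ ⟨c, e⟩ _ h
    have h1 := (bitNo N d R).injective h
    simp only [Prod.mk.injEq] at h1
    exact Prod.ext h1.1 h1.2.1
  · intro i hi
    have h1 := (mem_filter.1 hi).2
    unfold code at h1
    rw [decide_eq_true_iff] at h1
    refine ⟨(((bitNo N d R).symm i).1, ((bitNo N d R).symm i).2.1),
      mem_filter.2 ⟨mem_univ _, h1.1⟩, ?_⟩
    rw [h1.2]
    simp

lemma bits_le (N d R : ℕ) : bits N d R + 2 ≤ (N + 2) ^ (R ^ (d * R) + 4) := by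
  obtain ⟨Q, hQ⟩ : ∃ Q, Q = R ^ (d * R) := ⟨_, rfl⟩
  unfold bits
  rw [← hQ]
  have h1 : Q + 2 ≤ 2 ^ (Q + 2) := (Nat.lt_two_pow_self).le
  have h2 : 2 ^ (Q + 2) ≤ (N + 2) ^ (Q + 2) := Nat.pow_le_pow_left (by omega) _
  calc N * N * Q + 2 ≤ (N + 2) ^ 2 * (Q + 2) := by
        nlinarith [Nat.zero_le (N * Q), Nat.zero_le N, Nat.zero_le Q]
    _ ≤ (N + 2) ^ 2 * (N + 2) ^ (Q + 2) := Nat.mul_le_mul_left _ (h1.trans h2)
    _ = (N + 2) ^ (Q + 4) := by rw [← pow_add]; congr 1; omega

theorem easy_iff (d R : ℕ) (ε : ℝ) (t W : ℕ → ℕ) (hW : ∀ N, 1 ≤ W N ∧ W N ≤ 2 ^ t N) :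
    EasyOn d R ε t W ↔ Easy d R ε := by
  constructor
  · rintro ⟨c, h⟩
    refine ⟨21 + 14 * (R ^ (d * R) + 4) + c + 1, fun N => ?_⟩
    choose D d1 d2 d3 using h N
    have hb := bits_le N d R
    obtain ⟨C', o', q1, q2, q3⟩ := mux_multi (n := bits N d R) (m := 1)
      (Nat.log 2 (bits N d R) + 1) ((N + 2) ^ c)
      (Nat.lt_pow_succ_log_self (by norm_num) _) D d2
      (fun a _ => (D a).out) (fun a _ j => (D a).out_lt j)
    refine ⟨⟨C'.size, C'.gate, o' 0, C'.gate_lt, q2 0⟩, ?_, fun I => ?_⟩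
    · show C'.size ≤ _
      refine le_trans q1 (le_trans ?_ (absorb 21 (R ^ (d * R) + 4) c N (bits N d R + 2) ((N + 2) ^ c) hb
        le_rfl))
      unfold msz
      have e1 := pow_two_log (bits N d R)
      have e2 := tde_le' (bits N d R)
      obtain ⟨B, hB⟩ : ∃ B, B = bits N d R + 2 := ⟨_, rfl⟩
      rw [← hB] at e1 e2 ⊢
      obtain ⟨r, hr⟩ : ∃ r, r = 2 ^ (Nat.log 2 (bits N d R) + 1) := ⟨_, rfl⟩
      rw [← hr] at e1 ⊢
      obtain ⟨s, hs⟩ : ∃ s, s = (N + 2) ^ c := ⟨_, rfl⟩
      rw [← hs]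
      have hB1 : 1 ≤ B := by omega
      have e3 : B ≤ B ^ 14 := by
        calc B = B ^ 1 := (pow_one B).symm
          _ ≤ B ^ 14 := Nat.pow_le_pow_right hB1 (by norm_num)
      have e4 : B ^ 13 ≤ B ^ 14 := Nat.pow_le_pow_right hB1 (by norm_num)
      calc r * s + r * 2 ^ tde (bits N d R) + 6 * r * (1 + 1)
          ≤ (2 * B) * s + (2 * B) * (2 ^ 18 * B ^ 12) + 6 * (2 * B) * (1 + 1) := by gcongr
        _ = 2 * (B * s) + 2 ^ 19 * B ^ 13 + 24 * B := by ring
        _ ≤ 2 * (B ^ 14 * s) + 2 ^ 19 * B ^ 14 + 24 * B ^ 14 := by gcongr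
        _ ≤ 2 ^ 21 * B ^ 14 * (s + 1) := by
            have e5 : 2 ^ 21 * B ^ 14 * (s + 1) = 2 ^ 21 * (B ^ 14 * s) + 2 ^ 21 * B ^ 14 := by
              ring
            rw [e5]
            have e6 : 0 ≤ B ^ 14 * s := Nat.zero_le _
            omega
    · have h5 := d3 (edges I) I le_rfl (by have := (hW N).1; omega)
      have h6 : H540R2.Circuit.eval (⟨C'.size, C'.gate, o' 0, C'.gate_lt, q2 0⟩ :
          H540R2.Circuit (bits N d R)) (code I) = (D (edges I)).eval (code I) := by
        have h7 := q3 (code I) 0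
        rw [wt_code] at h7
        exact (reout_eval C' (o' 0) (q2 0) (code I)).trans h7
      unfold Right
      rw [h6]
      exact h5
  · rintro ⟨c, h⟩
    refine ⟨21 + 14 * (R ^ (d * R) + 4) + c + 1, fun N a => ?_⟩
    obtain ⟨D, d1, d2⟩ := h N
    have hb := bits_le N d R
    obtain ⟨C', q1, q2, q3⟩ := window_multi D a (min (t N) (Nat.log 2 (bits N d R) + 1))
    obtain ⟨o', r1, r2⟩ := q3 D.out D.out_lt
    refine ⟨⟨C'.size, C'.gate, o', C'.gate_lt, r1⟩, ?_, ?_, fun I h1 h2 => ?_⟩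
    · exact le_trans q1 (min_le_left _ _)
    · show C'.size ≤ _
      refine le_trans q2 (le_trans ?_ (absorb 21 (R ^ (d * R) + 4) c N (bits N d R + 2) D.size hb
        d1))
      unfold isz
      have e1 := pow_two_log (bits N d R)
      have e2 := tde_le' (bits N d R)
      obtain ⟨B, hB⟩ : ∃ B, B = bits N d R + 2 := ⟨_, rfl⟩
      rw [← hB] at e1 e2 ⊢
      obtain ⟨r, hr⟩ : ∃ r, r = 2 ^ (min (t N) (Nat.log 2 (bits N d R) + 1)) := ⟨_, rfl⟩
      have e3 : r ≤ 2 * B := by
        rw [hr]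
        exact (Nat.pow_le_pow_right (by norm_num) (min_le_right _ _)).trans e1
      rw [← hr]
      have hB1 : 1 ≤ B := by omega
      have hM : bits N d R + 1 ≤ B := by omega
      have e4 : B ^ 2 ≤ B ^ 14 := Nat.pow_le_pow_right hB1 (by norm_num)
      have e8 : r * 2 ^ tde (bits N d R) ≤ (2 * B) * (2 ^ 18 * B ^ 12) := Nat.mul_le_mul e3 e2
      calc bits N d R * (r * 2 ^ tde (bits N d R)) + r * 2 ^ tde (bits N d R) +
            6 * r * (bits N d R + 1) + 2 * D.size
          = (bits N d R + 1) * (r * 2 ^ tde (bits N d R)) + 6 * r * (bits N d R + 1) + 2 * D.size := by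
            ring
        _ ≤ B * ((2 * B) * (2 ^ 18 * B ^ 12)) + 6 * (2 * B) * B + 2 * D.size := by gcongr
        _ = 2 ^ 19 * B ^ 14 + 12 * B ^ 2 + 2 * D.size := by ring
        _ ≤ 2 ^ 21 * B ^ 14 * (D.size + 1) := by
            have e5 : 2 ^ 21 * B ^ 14 * (D.size + 1) =
                2 ^ 21 * (B ^ 14 * D.size) + 2 ^ 21 * B ^ 14 := by ring
            have e6 : D.size ≤ B ^ 14 * D.size :=
              Nat.le_mul_of_pos_left _ (Nat.pow_pos hB1)
            rw [e5]
            omega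
    · have h5 := d2 I
      have h6 : H540R2.Circuit.eval (⟨C'.size, C'.gate, o', C'.gate_lt, r1⟩ :
          H540R2.Circuit (bits N d R)) (code I) = D.eval (code I) := by
        refine (reout_eval C' o' r1 (code I)).trans (r2 (code I) ?_ ?_)
        · rw [wt_code]; exact h1
        · rcases le_total (t N) (Nat.log 2 (bits N d R) + 1) with h8 | h8
          · rw [min_eq_left h8, wt_code]
            have := (hW N).2
            omega
          · rw [min_eq_right h8]
            have h9 : bits N d R < 2 ^ (Nat.log 2 (bits N d R) + 1) :=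
              Nat.lt_pow_succ_log_self (by norm_num) _
            have := wt_le (code I)
            omega
      unfold Right
      rw [h6]
      exact h5

end Pool.Agent.W953.DG
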